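import Pool.Agent.H30.GMC.StT

/-!
# BPUL: pull-back of a basis of differentials under a birational morphism
-/

set_option linter.style.haveILetI false

open AlgebraicGeometry CategoryTheory FCB MvPolynomial

namespace GMC

namespace BPUL

/-- transport of a basis of differentials along an isomorphism -/
theorem iso_basis {k A B : Type} [CommRing k] [CommRing A] [CommRing B] [Algebra k A] [Algebra k B]
    (e : A ≃ₐ[k] B) {n : ℕ} (c : Module.Basis (Fin n) A (Ω[A⁄k])) (t : Fin n → A)
    (hc : ∀ i, c i = KaehlerDifferential.D k A (t i)) :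
    ∃ c' : Module.Basis (Fin n) B (Ω[B⁄k]), ∀ i, c' i = KaehlerDifferential.D k B (e (t i)) := by
  letI : Algebra A B := (e : A →+* B).toAlgebra
  letI : Algebra B A := (e.symm : B →+* A).toAlgebra
  haveI : IsScalarTower k A B := IsScalarTower.of_algebraMap_eq fun z => (e.commutes z).symm
  haveI : IsScalarTower k B A := IsScalarTower.of_algebraMap_eq fun z => (e.symm.commutes z).symm
  let f : Ω[A⁄k] →ₗ[A] Ω[B⁄k] := KaehlerDifferential.map k k A B
  let g : Ω[B⁄k] →ₗ[B] Ω[A⁄k] := KaehlerDifferential.map k k B A
  have hf : ∀ x : A, f (KaehlerDifferential.D k A x) = KaehlerDifferential.D k B (e x) :=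
    fun x => KaehlerDifferential.map_D k k A B x
  have hg : ∀ x : B, g (KaehlerDifferential.D k B x) = KaehlerDifferential.D k A (e.symm x) :=
    fun x => KaehlerDifferential.map_D k k B A x
  have hfs : ∀ (a : A) (x : Ω[A⁄k]), f (a • x) = e a • f x := by
    intro a x
    rw [map_smul]
    exact (algebraMap_smul B a (f x)).symm
  have hgs : ∀ (a : B) (x : Ω[B⁄k]), g (a • x) = e.symm a • g x := by
    intro a x
    rw [map_smul]
    exact (algebraMap_smul A a (g x)).symm
  have hgf : ∀ x, g (f x) = x := by
    intro x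
    have hx : x ∈ Submodule.span A (Set.range (KaehlerDifferential.D k A)) := by
      rw [KaehlerDifferential.span_range_derivation]
      trivial
    induction hx using Submodule.span_induction with
    | mem x hx =>
      obtain ⟨y, rfl⟩ := hx
      rw [hf, hg, e.symm_apply_apply]
    | zero => rw [map_zero, map_zero]
    | add x y _ _ h1 h2 => rw [map_add, map_add, h1, h2]
    | smul a x _ h1 => rw [hfs, hgs, h1, e.symm_apply_apply]
  have hfg : ∀ x, f (g x) = x := by
    intro x
    have hx : x ∈ Submodule.span B (Set.range (KaehlerDifferential.D k B)) := by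
      rw [KaehlerDifferential.span_range_derivation]
      trivial
    induction hx using Submodule.span_induction with
    | mem x hx =>
      obtain ⟨y, rfl⟩ := hx
      rw [hg, hf, e.apply_symm_apply]
    | zero => rw [map_zero, map_zero]
    | add x y _ _ h1 h2 => rw [map_add, map_add, h1, h2]
    | smul a x _ h1 => rw [hgs, hfs, h1, e.apply_symm_apply]
  have hbij : Function.Bijective f := ⟨fun x y h => by rw [← hgf x, h, hgf], fun y => ⟨g y, hfg y⟩⟩
  have hco : ∀ (a : A) (x : Ω[B⁄k]), (e : A ≃+* B) a • x = a • x := fun a x => algebraMap_smul B a x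
  refine ⟨(c.map (LinearEquiv.ofBijective f hbij)).mapCoeffs (e : A ≃+* B) hco, fun i => ?_⟩
  rw [Module.Basis.mapCoeffs_apply, Module.Basis.map_apply, LinearEquiv.ofBijective_apply, hc, hf]

end BPUL

theorem bpul_thm (h1 : S_PULA) (h2 : S_BIRF) : S_BPUL := by
  intro X Y _ _ _ _ s g n a b hg ha hab
  obtain ⟨hu, hadd, hone, hunit, hinv, hreg, hcst⟩ := h1 X Y g
  have hex := h2.1 X Y g hg.1
  choose e he he0 using hex
  have hmap : ∀ x y, IsPull g x y → e x = y := fun x y hxy => hu _ _ _ (he x) hxy
  let E : X.functionField →+* Y.functionField :=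
    { toFun := e
      map_one' := hmap _ _ hone
      map_mul' := fun x y => hmap _ _ (hadd _ _ _ _ (he x) (he y)).1
      map_zero' := by
        have h3 := (hadd _ _ _ _ (he 0) (he 0)).2
        rw [add_zero] at h3
        have h4 := hmap _ _ h3
        have h5 : e 0 + 0 = e 0 + e 0 := by rw [add_zero]; exact h4
        exact (add_left_cancel h5).symm
      map_add' := fun x y => hmap _ _ (hadd _ _ _ _ (he x) (he y)).2 }
  have hsurj : Function.Surjective E := by
    intro y
    obtain ⟨t, ht⟩ := hg.2.2 y
    exact ⟨algebraMap _ X.functionField t, hmap _ _ ⟨t, rfl, ht⟩⟩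
  letI : Algebra ℂ X.functionField := (ffHom s).toAlgebra
  letI : Algebra ℂ Y.functionField := (ffHom (g ≫ s)).toAlgebra
  let E' : X.functionField ≃ₐ[ℂ] Y.functionField :=
    AlgEquiv.ofBijective { E with commutes' := fun z => hmap _ _ (hcst s z) } ⟨E.injective, hsurj⟩
  obtain ⟨c, hc⟩ := ha
  obtain ⟨c', hc'⟩ := BPUL.iso_basis E' c a hc
  refine ⟨c', fun i => ?_⟩
  rw [hc']
  congr 1
  exact hmap _ _ (hab i)

end GMC
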