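import Pool.Agent.H30.GMC.StT
import Pool.Agent.H33.FCB.CANU

/-!
# FDER, FUNI, XDET, CANC: orders of forms
-/

set_option linter.style.haveILetI false

open AlgebraicGeometry CategoryTheory FCB MvPolynomial

namespace GMC

namespace FDER

section alg

variable {k B K : Type} [CommRing k] [CommRing B] [CommRing K] [Algebra k B] [Algebra k K]

/-- the derivation given by a coordinate of a basis of differentials -/
noncomputable def dd {n : ℕ} (c : Module.Basis (Fin n) K (Ω[K⁄k])) (i : Fin n) : Derivation k K K :=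
  (c.coord i).compDer (KaehlerDifferential.D k K)

theorem dd_apply {n : ℕ} (c : Module.Basis (Fin n) K (Ω[K⁄k])) (i : Fin n) (f : K) :
    dd c i f = c.repr (KaehlerDifferential.D k K f) i := rfl

theorem dd_det {n : ℕ} (c b : Module.Basis (Fin n) K (Ω[K⁄k])) (a : Fin n → K)
    (hb : ∀ i, b i = KaehlerDifferential.D k K (a i)) :
    Matrix.det (Matrix.of fun i j => dd c j (a i)) = c.det b := by
  rw [Module.Basis.det_apply, ← Matrix.det_transpose]
  congr 1
  ext i j
  rw [Matrix.transpose_apply, Matrix.of_apply, Module.Basis.toMatrix_apply, hb, dd_apply]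

variable [Algebra B K] [IsScalarTower k B K]

/-- coordinates of differentials of regular functions are regular -/
theorem repr_D {n : ℕ} (t : Fin n → B) (β : Module.Basis (Fin n) B (Ω[B⁄k]))
    (hβ : ∀ i, β i = KaehlerDifferential.D k B (t i)) (c : Module.Basis (Fin n) K (Ω[K⁄k]))
    (hc : ∀ i, c i = KaehlerDifferential.D k K (algebraMap B K (t i))) (s : B) (i : Fin n) :
    dd c i (algebraMap B K s) = algebraMap B K (β.repr (KaehlerDifferential.D k B s) i) := by
  have h1 : KaehlerDifferential.D k K (algebraMap B K s) =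
      ∑ l, algebraMap B K (β.repr (KaehlerDifferential.D k B s) l) • c l := by
    have h2 := congrArg (KaehlerDifferential.map k k B K) (β.sum_repr (KaehlerDifferential.D k B s))
    rw [map_sum, KaehlerDifferential.map_D] at h2
    rw [← h2]
    refine Finset.sum_congr rfl fun l _ => ?_
    rw [map_smul, hβ l, KaehlerDifferential.map_D, ← hc l, algebraMap_smul]
  rw [dd_apply, h1]
  exact congrFun (c.repr_sum_self _) i

end alg

theorem stk_ff {X : Scheme.{0}} [IsIntegral X] (s : X ⟶ Spec (.of ℂ)) (x : X) (z : ℂ) :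
    algebraMap (X.presheaf.stalk x) X.functionField (stkHom s x z) = ffHom s z := by
  have : Nonempty (⊤ : X.Opens) := ⟨⟨genericPoint X, trivial⟩⟩
  exact Scheme.algebraMap_germ_eq_germToFunctionField (X := X) (U := ⊤) (x := x) trivial (secHom s ⊤ z)

theorem det_ne {k K : Type} [CommRing k] [Field K] [Algebra k K] {n : ℕ}
    (c b : Module.Basis (Fin n) K (Ω[K⁄k])) : c.det b ≠ 0 := (c.isUnit_det b).ne_zero

end FDER

open FDER

theorem fder_thm : S_FDER := by
  intro X _ _ s n a p k h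
  letI : Algebra ℂ X.functionField := (ffHom s).toAlgebra
  letI : Algebra ℂ (X.presheaf.stalk p.1) := (stkHom s p.1).toAlgebra
  haveI : IsScalarTower ℂ (X.presheaf.stalk p.1) X.functionField :=
    IsScalarTower.of_algebraMap_eq fun z => (stk_ff s p.1 z).symm
  obtain ⟨t, g, ⟨β, hβ⟩, ⟨b, c, hb, hc, hg⟩, hk⟩ := h
  refine ⟨fun i => dd c i, ?_, ?_, ?_⟩
  · rintro i f ⟨w, rfl⟩
    exact ⟨β.repr (KaehlerDifferential.D ℂ _ w) i, (repr_D t β hβ c hc w i).symm⟩
  · rw [dd_det c b a hb]
    exact det_ne c b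
  · rw [dd_det c b a hb, ← hg]
    exact hk

theorem funi_thm : S_FUNI := by
  intro X _ _ s n a p k k' h h'
  letI : Algebra ℂ X.functionField := (ffHom s).toAlgebra
  letI : Algebra ℂ (X.presheaf.stalk p.1) := (stkHom s p.1).toAlgebra
  haveI : IsScalarTower ℂ (X.presheaf.stalk p.1) X.functionField :=
    IsScalarTower.of_algebraMap_eq fun z => (stk_ff s p.1 z).symm
  obtain ⟨t, g, ⟨β, hβ⟩, ⟨b, c, hb, hc, hg⟩, hk⟩ := h
  obtain ⟨t', g', ⟨β', hβ'⟩, ⟨b', c', hb', hc', hg'⟩, hk'⟩ := h'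
  obtain rfl : b = b' := Module.Basis.eq_of_apply_eq fun i => by rw [hb, hb']
  obtain ⟨w, hw, hw'⟩ := CANU.det_unit (K := X.functionField) _ _ β β' hβ hβ' c c' hc hc'
  have hmul : c'.det b = c'.det c * c.det b := by
    simp only [Module.Basis.det_apply]
    rw [← Matrix.det_mul, Module.Basis.toMatrix_mul_toMatrix]
  rw [hk, hk', hg, hg', hmul, Scheme.ord_mul (det_ne c' c) (det_ne c b), hw', CANU.ord_unit p w hw, zero_add]

theorem xdet_thm : S_XDET := by
  intro K _ φ ξ h0 hb hc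
  letI : Algebra ℂ K := φ.toAlgebra
  obtain ⟨b, hb⟩ := hb
  obtain ⟨c, hc⟩ := hc
  refine ⟨b, c, hb, hc, ?_⟩
  have h1 : b.det c * c.det b = 1 := by
    simp only [Module.Basis.det_apply]
    rw [← Matrix.det_mul, Module.Basis.toMatrix_mul_toMatrix, Module.Basis.toMatrix_self, Matrix.det_one]
  have hdd : ∀ i j, dd b i (ξ j) = if i = j then 1 else 0 := by
    intro i j
    rw [dd_apply, ← hb j, Module.Basis.repr_self, Finsupp.single_apply]
    by_cases h : i = j
    · rw [if_pos h, if_pos h.symm]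
    · rw [if_neg h, if_neg (Ne.symm h)]
  have h2 : b.det c = -(ξ 0)⁻¹ ^ 5 := by
    rw [← dd_det b c (xi ξ 1) hc, Matrix.det_fin_three]
    have e0 : xi ξ 1 0 = (ξ 0)⁻¹ := rfl
    have e1 : xi ξ 1 1 = ξ 1 * (ξ 0)⁻¹ := rfl
    have e2 : xi ξ 1 2 = ξ 2 * (ξ 0)⁻¹ ^ 2 := rfl
    simp only [Matrix.of_apply, e0, e1, e2, Derivation.leibniz, Derivation.leibniz_inv, smul_eq_mul,
      Derivation.leibniz_pow, nsmul_eq_mul, hdd]
    simp only [Fin.isValue, Fin.reduceEq, if_true, if_false]
    generalize (ξ 0)⁻¹ = u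
    simp
    ring
  rw [h2] at h1
  have h3 : -(ξ 0)⁻¹ ^ 5 * -ξ 0 ^ 5 = 1 := by
    field_simp
  have h4 : -(ξ 0)⁻¹ ^ 5 ≠ 0 := by
    intro h
    rw [h, zero_mul] at h3
    exact zero_ne_one h3
  exact mul_left_cancel₀ h4 (h3.trans h1.symm)

/-- change of the form -/
theorem FDER.change {X : Scheme.{0}} [IsIntegral X] [IsLocallyNoetherian X] (s : X ⟶ Spec (.of ℂ)) {n : ℕ}
    (a₀ a : Fin n → X.functionField) (p : PrimeDiv X) (k : ℤ) (h : FormOrd s a₀ p k)
    (b : letI : Algebra ℂ X.functionField := (ffHom s).toAlgebra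
      Module.Basis (Fin n) X.functionField (Ω[X.functionField⁄ℂ]))
    (hb : letI : Algebra ℂ X.functionField := (ffHom s).toAlgebra
      ∀ i, b i = KaehlerDifferential.D ℂ X.functionField (a i))
    (b₀ : letI : Algebra ℂ X.functionField := (ffHom s).toAlgebra
      Module.Basis (Fin n) X.functionField (Ω[X.functionField⁄ℂ]))
    (hb₀ : letI : Algebra ℂ X.functionField := (ffHom s).toAlgebra
      ∀ i, b₀ i = KaehlerDifferential.D ℂ X.functionField (a₀ i)) :
    FormOrd s a p (k + Scheme.ord (letI : Algebra ℂ X.functionField := (ffHom s).toAlgebra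
      b₀.det b) p.1) := by
  letI : Algebra ℂ X.functionField := (ffHom s).toAlgebra
  obtain ⟨t, g, ht, ⟨b', c, hb', hc, hg⟩, hk⟩ := h
  obtain rfl : b₀ = b' := Module.Basis.eq_of_apply_eq fun i => by rw [hb₀, hb']
  refine ⟨t, c.det b, ht, ⟨b, c, hb, hc, rfl⟩, ?_⟩
  have hmul : c.det b = c.det b₀ * b₀.det b := by
    simp only [Module.Basis.det_apply]
    rw [← Matrix.det_mul, Module.Basis.toMatrix_mul_toMatrix]
  rw [hmul, Scheme.ord_mul (det_ne c b₀) (det_ne b₀ b), ← hg, hk]

theorem canc_thm (h1 : S_PVC) (h2 : S_FINS) : S_CANC := by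
  intro Z K hK n a ha
  letI : Algebra ℂ Z.X.functionField := (ffHom Z.str).toAlgebra
  obtain ⟨n₀, a₀, f, hf, hK⟩ := hK
  obtain ⟨b, hb⟩ := ha
  have hcomp : CompactSpace Z.X := (h1 Z).1
  by_cases hp : Nonempty (PrimeDiv Z.X)
  · obtain ⟨p₀⟩ := hp
    obtain ⟨t, g, ht, ⟨b₀, c, hb₀, hc, hg⟩, hk⟩ := hK p₀
    obtain rfl : n₀ = n := by
      have := b₀.indexEquiv b
      simpa using Fintype.card_congr this
    have hne : b₀.det b * f⁻¹ ≠ 0 := mul_ne_zero (det_ne b₀ b) (inv_ne_zero hf)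
    have hfin := h2 Z.X _ hne
    have hinv : ∀ p : Z.X, Scheme.ord f⁻¹ p = - Scheme.ord f p := by
      intro p
      have h3 := Scheme.ord_mul (x := p) hf (inv_ne_zero hf)
      rw [mul_inv_cancel₀ hf] at h3
      have h4 := Scheme.ord_mul (x := p) (one_ne_zero (α := Z.X.functionField)) one_ne_zero
      rw [mul_one] at h4
      omega
    refine ⟨K + Finsupp.onFinset hfin.toFinset (fun p => Scheme.ord (b₀.det b * f⁻¹) p.1) (fun p hp => ?_),
      fun p => ?_, ?_⟩
    · rw [Set.Finite.mem_toFinset]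
      exact hp
    · have h3 := FDER.change Z.str a₀ a p _ (hK p) b hb b₀ hb₀
      have h4 : K p - Scheme.ord f p.1 + Scheme.ord (b₀.det b) p.1 =
          (K + Finsupp.onFinset hfin.toFinset (fun p => Scheme.ord (b₀.det b * f⁻¹) p.1) (fun p hp => by
            rw [Set.Finite.mem_toFinset]; exact hp)) p := by
        rw [Finsupp.add_apply, Finsupp.onFinset_apply, Scheme.ord_mul (det_ne b₀ b) (inv_ne_zero hf), hinv]
        ring
      rw [← h4]
      exact h3
    · refine ⟨_, hne, fun p => ?_⟩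
      rw [Finsupp.add_apply, Finsupp.onFinset_apply]
  · have he : IsEmpty (PrimeDiv Z.X) := not_nonempty_iff.1 hp
    exact ⟨0, fun p => he.elim p, 1, one_ne_zero, fun p => he.elim p⟩

end GMC
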