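import Pool.Agent.H30.GMC.StT

/-!
# JCHG: the Jacobian determinant in other charts
-/

open AlgebraicGeometry CategoryTheory FCB MvPolynomial

namespace GMC

theorem JCHG.dinv {K : Type} [Field K] [Algebra ℂ K] (D : Derivation ℂ K K) (a : K) :
    D a⁻¹ = -a⁻¹ ^ 2 * D a := by
  rw [Derivation.leibniz_inv, smul_eq_mul]

/-- the Jacobian determinant, expanded -/
theorem JCHG.jac3 {K : Type} [Field K] [Algebra ℂ K] (δ : Fin 3 → Derivation ℂ K K) (x y z : K) :
    Jac δ ![x, y, z] = δ 0 x * δ 1 y * δ 2 z - δ 0 x * δ 2 y * δ 1 z - δ 1 x * δ 0 y * δ 2 z +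
      δ 1 x * δ 2 y * δ 0 z + δ 2 x * δ 0 y * δ 1 z - δ 2 x * δ 1 y * δ 0 z := by
  rw [Jac, Matrix.det_fin_three]
  rfl

theorem JCHG.eta {K : Type} (a : Fin 3 → K) : a = ![a 0, a 1, a 2] := by
  ext i
  fin_cases i <;> rfl

theorem jchg_thm : S_JCHG := by
  intro K _ _ δ a
  rw [JCHG.eta a]
  generalize a 0 = x, a 1 = y, a 2 = z
  refine ⟨fun _ => ?_, fun _ => ?_, fun _ => ?_⟩
  all_goals
    simp only [Matrix.cons_val_zero, Matrix.cons_val_one, Matrix.cons_val]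
    simp only [JCHG.jac3, Derivation.leibniz, JCHG.dinv, smul_eq_mul, Derivation.leibniz_pow, nsmul_eq_mul]
    ring

end GMC
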