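import Pool.Agent.H30.GMC.StT

/-!
# LOCS: the estimate at the singular point
-/

open AlgebraicGeometry CategoryTheory FCB MvPolynomial

namespace GMC

namespace LOCS

variable {K : Type} [Field K] {O : Subring K} {v : K → ℤ}

theorem v_one (h : IsDV O v) : v 1 = 0 := by
  have := h.mul 1 1 one_ne_zero one_ne_zero
  rw [mul_one] at this
  omega

theorem v_neg_one (h : IsDV O v) : v (-1) = 0 := by
  have h1 := h.mul (-1) (-1) (neg_ne_zero.2 one_ne_zero) (neg_ne_zero.2 one_ne_zero)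
  rw [neg_mul_neg, mul_one, v_one h] at h1
  omega

theorem v_neg (h : IsDV O v) {a : K} (ha : a ≠ 0) : v (-a) = v a := by
  rw [neg_eq_neg_one_mul, h.mul _ _ (neg_ne_zero.2 one_ne_zero) ha, v_neg_one h, zero_add]

theorem v_inv (h : IsDV O v) {a : K} (ha : a ≠ 0) : v a⁻¹ = -v a := by
  have h1 := h.mul a a⁻¹ ha (inv_ne_zero ha)
  rw [mul_inv_cancel₀ ha, v_one h] at h1
  omega

theorem v_pow (h : IsDV O v) {a : K} (ha : a ≠ 0) (n : ℕ) : v (a ^ n) = n * v a := by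
  induction n with
  | zero => simp [v_one h]
  | succ n ih =>
    rw [pow_succ, h.mul _ _ (pow_ne_zero _ ha) ha, ih]
    push_cast
    ring

variable [Algebra ℂ K]

theorem case1 (h1 : S_LOCO) (h2 : S_JCHG) (h : IsDV O v) (hc : ∀ z : ℂ, algebraMap ℂ K z ∈ O)
    (δ : Fin 3 → Derivation ℂ K K) (hδ : ∀ j, ∀ f ∈ O, δ j f ∈ O) (x y z : K) (hx : x ∈ O) (hy : y ∈ O)
    (hz : z ≠ 0) (hj : Jac δ ![x, y, z] ≠ 0) (hv : v z ≤ 0) : 2 * v z ≤ v (Jac δ ![x, y, z]) := by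
  have e := (h2 K δ ![x, y, z]).2.2 hz
  change Jac δ ![x, y, z⁻¹] = -z⁻¹ ^ 2 * Jac δ ![x, y, z] at e
  have hz' : z⁻¹ ∈ O := (h.mem _).2 (Or.inr (by rw [v_inv h hz]; omega))
  have hne : -z⁻¹ ^ 2 ≠ 0 := neg_ne_zero.2 (pow_ne_zero _ (inv_ne_zero hz))
  have hne2 : Jac δ ![x, y, z⁻¹] ≠ 0 := by
    rw [e]
    exact mul_ne_zero hne hj
  have := (h1 K O v h hc δ hδ ![x, y, z⁻¹] (by intro i; fin_cases i; exacts [hx, hy, hz']) hne2).1
  rw [e, h.mul _ _ hne hj, v_neg h (pow_ne_zero _ (inv_ne_zero hz)), v_pow h (inv_ne_zero hz), v_inv h hz] at this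
  push_cast at this
  omega

/-- change of the chart -/
theorem case2 (h1 : S_LOCO) (h2 : S_JCHG) (h : IsDV O v) (hc : ∀ z : ℂ, algebraMap ℂ K z ∈ O)
    (δ : Fin 3 → Derivation ℂ K K) (hδ : ∀ j, ∀ f ∈ O, δ j f ∈ O) (x y z w s : K) (hx : x ≠ 0)
    (hz : z ≠ 0) (hw : w ≠ 0) (hs : s ≠ 0) (hs' : v s = 0)
    (e : Jac δ ![x⁻¹, y * x⁻¹, z * x⁻¹ ^ 2] = s * x⁻¹ ^ 5 * w)
    (hvx : v x < 0) (hxy : y = 0 ∨ v x ≤ v y) (hv : v z < 0) (hzx : v z < 2 * v x) :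
    5 * v z < 2 * v w := by
  have hx' : x⁻¹ ∈ O := (h.mem _).2 (Or.inr (by rw [v_inv h hx]; omega))
  have hy' : y * x⁻¹ ∈ O := by
    rw [h.mem]
    rcases hxy with h3 | h3
    · left
      rw [h3, zero_mul]
    · by_cases hy : y = 0
      · left
        rw [hy, zero_mul]
      · right
        rw [h.mul _ _ hy (inv_ne_zero hx), v_inv h hx]
        omega
  have hz' : z * x⁻¹ ^ 2 ≠ 0 := mul_ne_zero hz (pow_ne_zero _ (inv_ne_zero hx))
  have hvz : v (z * x⁻¹ ^ 2) = v z - 2 * v x := by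
    rw [h.mul _ _ hz (pow_ne_zero _ (inv_ne_zero hx)), v_pow h (inv_ne_zero hx), v_inv h hx]
    push_cast
    ring
  have hx5 : s * x⁻¹ ^ 5 ≠ 0 := mul_ne_zero hs (pow_ne_zero _ (inv_ne_zero hx))
  have := case1 h1 h2 h hc δ hδ _ _ _ hx' hy' hz' (by rw [e]; exact mul_ne_zero hx5 hw) (by omega)
  rw [e, hvz, h.mul _ _ hx5 hw, h.mul _ _ hs (pow_ne_zero _ (inv_ne_zero hx)), v_pow h (inv_ne_zero hx),
    v_inv h hx, hs'] at this
  push_cast at this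
  omega

end LOCS

open LOCS in
theorem locs_thm (h1 : S_LOCO) (h2 : S_JCHG) : S_LOCS := by
  intro K _ _ O v h hc δ hδ a ha hj hv h0 h3
  have hj' := hj
  have e0 := (h2 K δ a).1 (ha 0)
  have e1 := (h2 K δ a).2.1 (ha 1)
  have ea : a = ![a 0, a 1, a 2] := by
    ext i
    fin_cases i <;> rfl
  have hs : v (1 : K) = 0 := v_one h
  have hs' : v (-1 : K) = 0 := v_neg_one h
  by_cases c0 : 0 ≤ v (a 0) ∧ 0 ≤ v (a 1)
  · rw [ea] at hj
    have := case1 h1 h2 h hc δ hδ _ _ _ ((h.mem _).2 (Or.inr c0.1)) ((h.mem _).2 (Or.inr c0.2)) (ha 2) hj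
      (by omega)
    rw [← ea] at this
    omega
  · by_cases c1 : v (a 0) ≤ v (a 1)
    · exact case2 h1 h2 h hc δ hδ (a 0) (a 1) (a 2) (Jac δ a) (-1) (ha 0) (ha 2) hj'
        (neg_ne_zero.2 one_ne_zero) hs' (by rw [e0]; ring) (by omega) (Or.inr c1) hv h0
    · exact case2 h1 h2 h hc δ hδ (a 1) (a 0) (a 2) (Jac δ a) 1 (ha 1) (ha 2) hj' one_ne_zero hs
        (by rw [e1]; ring) (by omega) (Or.inr (by omega)) hv h3

end GMC
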