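import Pool.Agent.H30.GMC.StT

/-!
# LOCZ: the local estimate
-/

set_option linter.style.haveILetI false
set_option linter.unusedSectionVars false

open AlgebraicGeometry CategoryTheory FCB MvPolynomial

namespace GMC

namespace LOCZ

section pull

variable {X Y : Scheme.{0}} [IsIntegral X] [IsLocallyNoetherian X] [IsIntegral Y] [IsLocallyNoetherian Y]

/-- the homomorphism of function fields of a dominant morphism -/
theorem exists_e (h1 : S_PULA) (h2 : S_BIRF) (g : Y ⟶ X) (hg : g (genericPoint Y) = genericPoint X) :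
    ∃ e : X.functionField →+* Y.functionField, (∀ a b, IsPull g a b ↔ e a = b) ∧
      (∀ (s : X ⟶ Spec (.of ℂ)) (z : ℂ), e (ffHom s z) = ffHom (g ≫ s) z) ∧
      ∀ (y : Y) a, RegAt (g y) a → RegAt y (e a) ∧ (UnitAt y (e a) ↔ UnitAt (g y) a) := by
  obtain ⟨hu, hadd, hone, hunit, hinv, hreg, hcst⟩ := h1 X Y g
  have hex := h2.1 X Y g hg
  choose e he he0 using hex
  have hmap : ∀ x y, IsPull g x y → e x = y := fun x y hxy => hu _ _ _ (he x) hxy
  let E : X.functionField →+* Y.functionField :=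
    { toFun := e
      map_one' := hmap _ _ hone
      map_mul' := fun x y => hmap _ _ (hadd _ _ _ _ (he x) (he y)).1
      map_zero' := by
        have h3 := (hadd _ _ _ _ (he 0) (he 0)).2
        rw [add_zero] at h3
        have h4 := hmap _ _ h3
        have h5 : e 0 + 0 = e 0 + e 0 := by rw [add_zero]; exact h4
        exact (add_left_cancel h5).symm
      map_add' := fun x y => hmap _ _ (hadd _ _ _ _ (he x) (he y)).2 }
  refine ⟨E, fun a b => ⟨fun h => hmap _ _ h, fun h => ?_⟩, fun s z => hmap _ _ (hcst s z), fun y a ha => ?_⟩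
  · rw [← h]
    exact he a
  · obtain ⟨b, hb, hb1, hb2⟩ := hreg y a ha
    have : E a = b := hmap _ _ hb
    rw [this]
    exact ⟨hb1, hb2⟩

theorem regAt_generic (f : X.functionField) : RegAt (genericPoint X) f := by
  refine ⟨f, ?_⟩
  change (X.presheaf.stalkSpecializes _).hom f = f
  rw [TopCat.Presheaf.stalkSpecializes_refl]
  rfl

theorem eq_generic {x : X} (hx : Order.coheight x = 0) : x = genericPoint X := by
  rw [Order.coheight_eq_zero] at hx
  have h1 : genericPoint X ⤳ x := (genericPoint_spec X).specializes trivial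
  have h2 : x ⤳ genericPoint X := hx h1
  exact (h2.antisymm h1).eq

/-- the ring of regular functions at a divisor -/
noncomputable def O (x : Y) : Subring Y.functionField := (algebraMap (Y.presheaf.stalk x) Y.functionField).range

theorem mem_O (x : Y) (f : Y.functionField) : f ∈ O x ↔ RegAt x f := Iff.rfl

theorem regAt_mul {x : Y} {a b : Y.functionField} (ha : RegAt x a) (hb : RegAt x b) : RegAt x (a * b) := by
  rw [← mem_O] at *
  exact mul_mem ha hb

theorem isDV (h1 : S_ORDV) (p : PrimeDiv Y) (hp : IsIntegrallyClosed (Y.presheaf.stalk p.1)) :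
    IsDV (O p.1) fun f => Scheme.ord f p.1 where
  mul a b ha hb := Scheme.ord_mul ha hb
  mem a := by
    by_cases ha : a = 0
    · subst ha
      simp
    · rw [mem_O, (h1 Y p hp).1 a ha]
      constructor
      · exact fun h => Or.inr h
      · rintro (h | h)
        · exact absurd h ha
        · exact h
  unif := (h1 Y p hp).2.2

end pull

section val

variable {K : Type} [Field K] {O : Subring K} {v : K → ℤ}

theorem v_one (h : IsDV O v) : v 1 = 0 := by
  have := h.mul 1 1 one_ne_zero one_ne_zero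
  rw [mul_one] at this
  omega

theorem v_neg_one (h : IsDV O v) : v (-1) = 0 := by
  have h1 := h.mul (-1) (-1) (neg_ne_zero.2 one_ne_zero) (neg_ne_zero.2 one_ne_zero)
  rw [neg_mul_neg, mul_one, v_one h] at h1
  omega

theorem v_neg (h : IsDV O v) {a : K} (ha : a ≠ 0) : v (-a) = v a := by
  rw [neg_eq_neg_one_mul, h.mul _ _ (neg_ne_zero.2 one_ne_zero) ha, v_neg_one h, zero_add]

theorem v_inv (h : IsDV O v) {a : K} (ha : a ≠ 0) : v a⁻¹ = -v a := by
  have h1 := h.mul a a⁻¹ ha (inv_ne_zero ha)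
  rw [mul_inv_cancel₀ ha, v_one h] at h1
  omega

theorem v_pow (h : IsDV O v) {a : K} (ha : a ≠ 0) (n : ℕ) : v (a ^ n) = n * v a := by
  induction n with
  | zero => simp [v_one h]
  | succ n ih =>
    rw [pow_succ, h.mul _ _ (pow_ne_zero _ ha) ha, ih]
    push_cast
    ring

theorem v_div (h : IsDV O v) {a b : K} (ha : a ≠ 0) (hb : b ≠ 0) : v (a / b) = v a - v b := by
  rw [div_eq_mul_inv, h.mul _ _ ha (inv_ne_zero hb), v_inv h hb]
  ring

end val

theorem wq_ne {K : Type} [Field K] {ξ : Fin 3 → K} (h : ∀ i, ξ i ≠ 0) (q : Fin 4) : wq ξ q ≠ 0 := by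
  fin_cases q
  · exact one_ne_zero
  · exact pow_ne_zero 2 (h 0)
  · exact pow_ne_zero 2 (h 1)
  · exact h 2

theorem map_wq {K L : Type} [Field K] [Field L] (e : K →+* L) (ξ : Fin 3 → K) (q : Fin 4) :
    e (wq ξ q) = wq (fun i => e (ξ i)) q := by
  fin_cases q
  · exact map_one e
  · exact map_pow e _ 2
  · exact map_pow e _ 2
  · rfl

theorem map_xi {K L : Type} [Field K] [Field L] (e : K →+* L) (ξ : Fin 3 → K) (i k : Fin 3) :
    e (xi ξ i k) = xi (fun i => e (ξ i)) i k := by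
  fin_cases i <;> fin_cases k
  · rfl
  · rfl
  · rfl
  · exact map_inv₀ e _
  · change e (ξ 1 * (ξ 0)⁻¹) = e (ξ 1) * (e (ξ 0))⁻¹
    rw [map_mul, map_inv₀]
  · change e (ξ 2 * (ξ 0)⁻¹ ^ 2) = e (ξ 2) * (e (ξ 0))⁻¹ ^ 2
    rw [map_mul, map_pow, map_inv₀]
  · exact map_inv₀ e _
  · change e (ξ 0 * (ξ 1)⁻¹) = e (ξ 0) * (e (ξ 1))⁻¹
    rw [map_mul, map_inv₀]
  · change e (ξ 2 * (ξ 1)⁻¹ ^ 2) = e (ξ 2) * (e (ξ 1))⁻¹ ^ 2
    rw [map_mul, map_pow, map_inv₀]

/-- the Jacobian determinant in the chart `i` -/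
theorem jac_xi (h : S_JCHG) {K : Type} [Field K] [Algebra ℂ K] {O : Subring K} {v : K → ℤ} (hv : IsDV O v)
    (δ : Fin 3 → Derivation ℂ K K) (a : Fin 3 → K) (ha : ∀ i, a i ≠ 0) (hj : Jac δ a ≠ 0) (i : Fin 3) :
    Jac δ (xi a i) ≠ 0 ∧ 2 * v (Jac δ (xi a i)) = 2 * v (Jac δ a) - 5 * v (wq a (ch i)) := by
  fin_cases i
  · refine ⟨hj, ?_⟩
    change 2 * v (Jac δ a) = 2 * v (Jac δ a) - 5 * v 1
    rw [v_one hv]
    ring
  · have e := (h K δ a).1 (ha 0)
    change Jac δ (xi a 1) = _ at e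
    change Jac δ (xi a 1) ≠ 0 ∧ 2 * v (Jac δ (xi a 1)) = 2 * v (Jac δ a) - 5 * v (a 0 ^ 2)
    have h5 : (a 0)⁻¹ ^ 5 ≠ 0 := pow_ne_zero _ (inv_ne_zero (ha 0))
    rw [e]
    refine ⟨mul_ne_zero (neg_ne_zero.2 h5) hj, ?_⟩
    rw [hv.mul _ _ (neg_ne_zero.2 h5) hj, v_neg hv h5, v_pow hv (inv_ne_zero (ha 0)), v_inv hv (ha 0),
      v_pow hv (ha 0)]
    push_cast
    ring
  · have e := (h K δ a).2.1 (ha 1)
    change Jac δ (xi a 2) = _ at e
    change Jac δ (xi a 2) ≠ 0 ∧ 2 * v (Jac δ (xi a 2)) = 2 * v (Jac δ a) - 5 * v (a 1 ^ 2)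
    have h5 : (a 1)⁻¹ ^ 5 ≠ 0 := pow_ne_zero _ (inv_ne_zero (ha 1))
    rw [e]
    refine ⟨mul_ne_zero h5 hj, ?_⟩
    rw [hv.mul _ _ h5 hj, v_pow hv (inv_ne_zero (ha 1)), v_inv hv (ha 1), v_pow hv (ha 1)]
    push_cast
    ring

end LOCZ

open LOCZ in
theorem locz_thm (hORDV : S_ORDV) (hPULA : S_PULA) (hBIRF : S_BIRF) (hFDER : S_FDER) (hLOCO : S_LOCO)
    (hJCHG : S_JCHG) (hLOCS : S_LOCS) (hXIEX : S_XIEX) (hXUQR : S_XUQR) (hXCHA : S_XCHA) (hXPRI : S_XPRI) :
    S_LOCZ := by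
  intro M ξ hξ W g E ξ' k q u' hgs hbir hnorm hpull hform hq hu'
  -- the homomorphism of function fields
  obtain ⟨e, hpe, hes, hreg⟩ := exists_e hPULA hBIRF g hbir.1
  have hξ0 := ((hXIEX M).2 ξ hξ).1
  obtain rfl : ξ' = fun i => e (ξ i) := funext fun i => ((hpe _ _).1 (hpull i)).symm
  obtain rfl : e (wq ξ q)⁻¹ = u' := (hpe _ _).1 hu'
  have hsurj : Function.Surjective e := by
    intro y
    obtain ⟨t, ht⟩ := hbir.2.2 y
    exact ⟨algebraMap _ M.X.functionField t, (hpe _ _).1 ⟨t, rfl, ht⟩⟩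
  have he0 : ∀ {a : M.X.functionField}, a ≠ 0 → e a ≠ 0 := fun ha h => ha ((map_eq_zero e).1 h)
  letI : Algebra ℂ M.X.functionField := (ffHom M.str).toAlgebra
  letI : Algebra ℂ W.X.functionField := (ffHom W.str).toAlgebra
  have hes' : ∀ z : ℂ, e (algebraMap ℂ M.X.functionField z) = algebraMap ℂ W.X.functionField z := by
    intro z
    change e (ffHom M.str z) = ffHom W.str z
    rw [hes, hgs]
  let ea : M.X.functionField →ₐ[ℂ] W.X.functionField := { e with commutes' := hes' }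
  have hea : ∀ x, ea x = e x := fun _ => rfl
  -- the valuation
  have hdv := isDV hORDV E hnorm
  set v : W.X.functionField → ℤ := fun f => Scheme.ord f E.1 with hv
  have hconst : ∀ z : ℂ, algebraMap ℂ W.X.functionField z ∈ O E.1 := by
    intro z
    refine ⟨stkHom W.str E.1 z, ?_⟩
    have : Nonempty (⊤ : W.X.Opens) := ⟨⟨genericPoint W.X, trivial⟩⟩
    exact Scheme.algebraMap_germ_eq_germToFunctionField (X := W.X) (U := ⊤) (x := E.1) trivial
      (secHom W.str ⊤ z)
  obtain ⟨δ, hδ, hdet, hk⟩ := hFDER W.X W.str 3 _ E k hform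
  have hk' : k = v (Jac δ fun i => e (ξ i)) := hk
  have hdet' : Jac δ (fun i => e (ξ i)) ≠ 0 := hdet
  have hδ' : ∀ j, ∀ f ∈ O E.1, δ j f ∈ O E.1 := fun j f hf => hδ j f hf
  have hξe : ∀ i, e (ξ i) ≠ 0 := fun i => he0 (hξ0 i)
  have hu : v (e (wq ξ q)⁻¹) = - v (wq (fun i => e (ξ i)) q) := by
    rw [map_inv₀, v_inv hdv (he0 (wq_ne hξ0 q)), map_wq]
  change 0 ≤ 2 * k + 5 * v (e (wq ξ q)⁻¹) ∧
    (Order.coheight (g E.1) ≠ 1 → 0 < 2 * k + 5 * v (e (wq ξ q)⁻¹))
  rw [hu]
  -- units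
  have hunit : ∀ f : M.X.functionField, f ≠ 0 → RegAt (g E.1) f → 0 ≤ v (e f) ∧
      (UnitAt (g E.1) f ↔ v (e f) = 0) := by
    intro f hf hr
    obtain ⟨h1, h2⟩ := hreg E.1 f hr
    refine ⟨((hORDV W.X E hnorm).1 _ (he0 hf)).1 h1, ?_⟩
    rw [← h2]
    exact (hORDV W.X E hnorm).2.1 _ (he0 hf)
  by_cases hA : ∃ i : Fin 3, Qc (ch i) ∉ M.P (g E.1)
  · obtain ⟨i, hi⟩ := hA
    obtain ⟨hjne, hjv⟩ := jac_xi hJCHG hdv δ (fun i => e (ξ i)) hξe hdet' i
    -- the quotient of the two denominators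
    have hquo : v (wq (fun i => e (ξ i)) q) = v (wq (fun i => e (ξ i)) (ch i)) := by
      obtain ⟨h1, h2⟩ := hXUQR M ξ hξ (ch i) q (g E.1) hq
      have h3 := (hunit _ (div_ne_zero (wq_ne hξ0 (ch i)) (wq_ne hξ0 q)) h1).2.1 (h2.2 hi)
      rw [map_div₀, map_wq, map_wq, v_div hdv (wq_ne hξe _) (wq_ne hξe _)] at h3
      omega
    have hcha := (hXCHA M ξ hξ i (g E.1) hi).1
    have haev : ∀ F : MvPolynomial (Fin 3) ℂ, aeval (xi (fun i => e (ξ i)) i) F = e (aeval (xi ξ i) F) := by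
      intro F
      rw [← hea, ← AlgHom.comp_apply, comp_aeval]
      congr 2
      ext k
      exact (map_xi e ξ i k).symm
    have hmem : ∀ j, xi (fun i => e (ξ i)) i j ∈ O E.1 := by
      intro j
      have h1 := haev (X j)
      rw [aeval_X, aeval_X] at h1
      rw [h1, mem_O]
      have h2 := hcha (X j)
      rw [aeval_X] at h2
      exact (hreg E.1 _ h2).1
    obtain ⟨hl1, hl2⟩ := hLOCO W.X.functionField (O E.1) v hdv hconst δ hδ' _ hmem hjne
    refine ⟨by omega, fun hc => ?_⟩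
    obtain ⟨p, hp, hpr, hht⟩ := hXPRI M ξ hξ i (g E.1) hi
    have h2 : 2 ≤ p.height := by
      rw [hht]
      have h0 : Order.coheight (g E.1) ≠ 0 := by
        intro h0
        have hgen := eq_generic h0
        obtain ⟨π, hπ, hπ1⟩ := hdv.unif
        obtain ⟨a, ha⟩ := hsurj π⁻¹
        have hra : RegAt (g E.1) a := by
          rw [hgen]
          exact regAt_generic a
        have ha0 : a ≠ 0 := by
          rintro rfl
          rw [map_zero] at ha
          exact inv_ne_zero hπ ha.symm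
        have h3 := (hunit a ha0 hra).1
        rw [ha, v_inv hdv hπ, hπ1] at h3
        omega
      have h1 : (1 : ℕ∞) ≤ Order.coheight (g E.1) := Order.one_le_iff_ne_zero.2 h0
      have h3 : (1 : ℕ∞) < Order.coheight (g E.1) := lt_of_le_of_ne h1 (Ne.symm hc)
      have h4 := Order.add_one_le_of_lt h3
      rw [one_add_one_eq_two] at h4
      exact h4
    have := hl2 p hp (fun F => ?_) h2
    · omega
    · rw [hpr F, haev]
      by_cases hF : aeval (xi ξ i) F = 0
      · constructor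
        · intro _
          left
          rw [hF, map_zero]
        · intro _ hun
          obtain ⟨s, hs, hs'⟩ := hun
          rw [hF] at hs'
          have : IsUnit (algebraMap (M.X.presheaf.stalk (g E.1)) M.X.functionField s) := hs.map _
          rw [hs'] at this
          exact not_isUnit_zero this
      · obtain ⟨h5, h6⟩ := hunit _ hF (hcha F)
        rw [h6]
        constructor
        · intro h7
          right
          omega
        · rintro (h7 | h7)
          · exact absurd h7 (he0 hF)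
          · omega
  · push Not at hA
    have hq3 : q = 3 := by
      by_contra hne
      obtain ⟨j, hj⟩ : ∃ j : Fin 3, ch j = q := by
        have : ∀ q : Fin 4, q ≠ 3 → ∃ j : Fin 3, ch j = q := by decide
        exact this q hne
      exact hq (hj ▸ hA j)
    subst hq3
    have key : ∀ j : Fin 3, v (wq (fun i => e (ξ i)) 3) < v (wq (fun i => e (ξ i)) (ch j)) := by
      intro j
      obtain ⟨h1, h2⟩ := hXUQR M ξ hξ (ch j) 3 (g E.1) hq
      obtain ⟨h3, h4⟩ := hunit _ (div_ne_zero (wq_ne hξ0 (ch j)) (wq_ne hξ0 3)) h1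
      rw [h2] at h4
      rw [map_div₀, map_wq, map_wq, v_div hdv (wq_ne hξe _) (wq_ne hξe _)] at h3 h4
      have h5 : ¬ (v (wq (fun i => e (ξ i)) (ch j)) - v (wq (fun i => e (ξ i)) 3) = 0) := by
        intro h5
        exact h4.2 h5 (hA j)
      omega
    have k0 := key 0
    have k1 := key 1
    have k2 := key 2
    change v (e (ξ 2)) < v 1 at k0
    change v (e (ξ 2)) < v (e (ξ 0) ^ 2) at k1
    change v (e (ξ 2)) < v (e (ξ 1) ^ 2) at k2
    rw [v_one hdv] at k0
    rw [v_pow hdv (hξe 0)] at k1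
    rw [v_pow hdv (hξe 1)] at k2
    push_cast at k1 k2
    have := hLOCS W.X.functionField (O E.1) v hdv hconst δ hδ' (fun i => e (ξ i)) hξe hdet' k0 k1 k2
    change 0 ≤ 2 * k + 5 * -v (e (ξ 2)) ∧ (_ → 0 < 2 * k + 5 * -v (e (ξ 2)))
    change 5 * v (e (ξ 2)) < 2 * v (Jac δ fun i => e (ξ i)) at this
    rw [← hk'] at this
    exact ⟨by omega, fun _ => by omega⟩

end GMC
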